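import Pool.Agent.Run7.h23.Gd.Cnd

/-!
# From the conditions over the extension to the conditions over `F`
-/

set_option autoImplicit false
set_option linter.all false

open Polynomial IsDedekindDomain WithZero NumberField
open scoped Classical IntermediateField

namespace Run7.h23.Gd

open Run7.h23.Gn
open Pool.Agent.N783.PF
open Pool.Agent.N874.PP (Ev Sq1 U0)
open Pool.Agent.N783.PQ (LocIm)
open Pool.Agent.N874.JM (LocF)
open Pool.Agent.N922.PQ (ev_down sq_down)

section base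

variable {F L : Type} [Field F] [NumberField F] [Field L] [NumberField L] [Algebra F L]
  {M Ω : Type} [Field M] [NumberField M] [Field Ω] [NumberField Ω] [Algebra F M]
  [Algebra L Ω] [Algebra M Ω] [Algebra F Ω] [IsScalarTower F L Ω] [IsScalarTower F M Ω]

theorem base_sqD {g W : ℕ} {f f₁ : (𝓞 F)[X]} {θ : L} {S J : Finset ℕ}
    {𝔮 : ℕ → Ideal (𝓞 F)} {r P : ℕ → (𝓞 F)[X]} (hg : 1 ≤ g) (hG : IsGen g f θ) (hsq : SqF g f)
    (hF₁ : GoodF g W f₁) (hS : GoodS g W S 𝔮 r P) (hc1 : Cg (sp F W) f f₁)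
    (hcq : ∀ q ∈ S, Cg (sp F q) f (P q)) (hJ : J ⊆ S)
    (hsel : ∀ h : F[X], aeval θ h ≠ 0 → IsSquare (Algebra.norm F (aeval θ h)) →
      (∀ 𝔓 : HeightOneSpectrum (𝓞 L), (∀ q ∈ J, Ov (𝔮 q) 𝔓 → 𝔓.valuation L θ ≠ 1) →
        Ev 𝔓 (aeval θ h)) →
      (∀ q ∈ J, ∀ 𝔓 : HeightOneSpectrum (𝓞 L), Ov (𝔮 q) 𝔓 → 𝔓.valuation L θ = 1 →
        U0 𝔓 ((q : L) * θ) (aeval θ h)) →
      (∀ w : HeightOneSpectrum (𝓞 F), (2 : 𝓞 F) ∈ w.asIdeal →
        LocF (w.adicCompletion F) (fF f) h) →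
      (∀ σ : F →+* ℝ, LocIm ℝ ((fF f).map σ) (h.map σ)) → IsSquare (aeval θ h))
    (hM : Mok M S 𝔮 f) (hθ : M⟮algebraMap L Ω θ⟯ = ⊤) (hirr : Irreducible (fM M f))
    {x : L} (hx : x ≠ 0) (hC : CndD M J 𝔮 f θ (algebraMap L Ω x))
    (hN : IsSquare (Algebra.norm F x)) : IsSquare x := by
  obtain ⟨h₀, hh₀⟩ := exists_poly hG x
  have hcQ : ∀ q ∈ S, Cg (𝔮 q) f (X * r q) := by
    intro q hq j
    obtain ⟨-, -, -, -, -, -, a2, -, -, -, -, -, -, a3, -⟩ := hS q hq
    have b1 := Pool.Agent.N78.PF.sp_le (F := F) a2 (hcq q hq j)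
    have b2 := a3 j
    have := Ideal.add_mem _ b1 b2
    simpa using this
  have hone : ∀ (v : HeightOneSpectrum (𝓞 F)) (𝔓 : HeightOneSpectrum (𝓞 L)), Ab v 𝔓 →
      ∀ n : ℕ, (n : 𝓞 F) ∉ v.asIdeal → 𝔓.valuation L (n : L) = 1 := by
    intro v 𝔓 hv n hn
    have h1 := (val_eq_iff hv (n : F)).2 (val_nat_eq v n hn)
    rwa [map_natCast] at h1
  have hroot := hG.root
  -- the image at two and at infinity
  obtain ⟨h, hh, hh2, hhr⟩ := hC.loc
  have hdvd : fM M f ∣ h - h₀.map (algebraMap F M) := by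
    have h1 : aeval (algebraMap L Ω θ) (h - h₀.map (algebraMap F M)) = 0 := by
      rw [map_sub, hh, aeval_map_algebraMap, aeval_algebraMap_apply, hh₀, sub_self]
    have h2 : minpoly M (algebraMap L Ω θ) = fM M f :=
      (minpoly.eq_of_irreducible_of_monic hirr (root_up hroot) ((hG.mon.map _).map _)).symm
    rw [← h2]
    exact minpoly.dvd M _ h1
  have hfmap : ∀ {E : Type} [Field E] (τ : M →+* E) (ρ : F →+* E),
      (∀ y : F, τ (algebraMap F M y) = ρ y) →
      LocIm E ((fM M f).map τ) (h.map τ) → LocIm E ((fF f).map ρ) (h₀.map ρ) := by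
    intro E _ τ ρ hτ H
    have h1 : (fM M f).map τ ∣ h.map τ - (h₀.map (algebraMap F M)).map τ := by
      have h2 := map_dvd (mapRingHom τ) hdvd
      simpa using h2
    have h2 := locIm_congr h1 H
    have e : ∀ p : F[X], (p.map (algebraMap F M)).map τ = p.map ρ := by
      intro p
      rw [Polynomial.map_map]
      congr 1
      exact RingHom.ext hτ
    rw [fM, fF_map, e, e] at h2
    exact h2
  rw [← hh₀] at hx hN ⊢
  refine hsel h₀ hx hN (fun 𝔓 h𝔓 => ?_) (fun q hq 𝔓 o1 v1 => ?_) (fun v hv => ?_) (fun ρ => ?_)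
  · -- even valuations
    obtain ⟨v, hv⟩ := exists_ab (F := F) 𝔓
    have hov := ov_of_ab hv
    by_cases hI : Irreducible (rd v.asIdeal f)
    · exact Pool.Agent.N426.PF.pin int g F L f θ hG hsq v.asIdeal v.isPrime v.ne_bot hI _ hx hN 𝔓
        hov
    have c2 : (2 : 𝓞 F) ∉ v.asIdeal := by
      intro c2
      have hW : (W : 𝓞 F) ∈ v.asIdeal := by
        obtain ⟨k, hk⟩ := hF₁.two
        rw [hk]
        push_cast
        exact Ideal.mul_mem_right _ _ c2
      have e1 := Pool.Agent.N78.PF.rd_eq (Pool.Agent.N78.PF.sp_le hW) hc1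
      exact hI (by rw [e1]; exact hF₁.irr _ v.isPrime c2)
    by_cases cq : ∃ q ∈ J, (q : 𝓞 F) ∈ v.asIdeal
    · obtain ⟨q, hq, hqw⟩ := cq
      have hqS := hJ hq
      by_cases cw : v.asIdeal = 𝔮 q
      · have o1 : Ov (𝔮 q) 𝔓 := by
          rw [← cw]
          exact hov
        have v1 : 𝔓.valuation L θ < 1 :=
          lt_of_le_of_ne (Pool.Agent.N78.PF.val_theta hG 𝔓) (h𝔓 q hq o1)
        exact Pool.Agent.N426.PF.parq int exq g W F L f θ S 𝔮 r P hg hG hsq hS q hqS (hcQ q hqS) _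
          hx hN 𝔓 o1 v1
      · exfalso
        have e1 := Pool.Agent.N78.PF.rd_eq (Pool.Agent.N78.PF.sp_le hqw) (hcq q hqS)
        obtain ⟨-, -, -, -, -, -, -, -, -, -, -, -, -, -, a1⟩ := hS q hqS
        exact hI (by rw [e1]; exact a1 _ v.isPrime hqw cw)
    · have hun : Un v M := by
        by_contra hc
        exact hI (hM.ram v hc)
      have key : ∀ 𝔓 : HeightOneSpectrum (𝓞 L), Ab v 𝔓 →
          𝔓.valuation L (aeval θ (derivative (fF f))) = 1 → Ev 𝔓 (aeval θ h₀) := by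
        intro 𝔓 hv h2
        obtain ⟨𝔓', hd, w, hw, hvw⟩ := up (M := M) (Ω := Ω) hG.mon hroot hθ hun 𝔓 hv h2
        rw [← ev_down hd, hh₀]
        refine hC.ev 𝔓' ?_ (fun q hq => ?_) ?_ fun v' hv' => ?_
        · have := hone v 𝔓 hv 2 (by exact_mod_cast c2)
          rw [← hd, map_natCast] at this
          exact_mod_cast this
        · have := hone v 𝔓 hv q fun hm => cq ⟨q, hq, hm⟩
          rwa [← hd, map_natCast] at this
        · rw [hd]
          exact h2
        · have e : v' = v := by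
            refine ab_unique (E := L) (𝔓 := 𝔓) (fun y hy => ?_) hv
            have h5 := hv' y hy
            rwa [IsScalarTower.algebraMap_apply F L Ω, hd] at h5
          rw [e]
          exact hI
      by_cases cu : 𝔓.valuation L (aeval θ (derivative (fF f))) = 1
      · exact key 𝔓 hv cu
      · have v1 : 𝔓.valuation L (aeval θ (derivative (fF f))) < 1 :=
          lt_of_le_of_ne (Pool.Agent.N78.PF.val_der hG 𝔓) cu
        obtain ⟨⟨c, hc⟩, hother⟩ :=
          Pool.Agent.N459.PF.ram int g F L f θ hG hsq v.asIdeal v.isPrime v.ne_bot 𝔓 hov v1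
        refine Pool.Agent.N426.PF.par int g F L f θ hG hsq v.asIdeal v.isPrime v.ne_bot 𝔓 c hov hc _
          hx hN ?_
        intro 𝔓' o' n'
        exact key 𝔓' (ab_of_ov o') (hother 𝔓' o' n')
  · -- the primes in `J`
    have hqS := hJ hq
    obtain ⟨v, hv⟩ := exists_ab (F := F) 𝔓
    have hpr : (𝔮 q).IsPrime := (hS q hqS).2.2.2.2.2.1
    have ev : 𝔮 q = v.asIdeal := by
      have hmax : (𝔮 q).IsMaximal := hpr.isMaximal (q_ne hS hqS)
      have e := eq_under (ov_of_ab hv)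
      rw [e]
      exact hmax.eq_of_le (𝔓.under (𝓞 F)).isPrime.ne_top fun a ha => o1 a ha
    have hsp := hM.spl q hqS v ev.symm
    have hder := (csq g W F L f θ S 𝔮 r P hg hG hsq hS q hqS (hcQ q hqS) 𝔓 o1 v1).2.2.1
    obtain ⟨𝔓', hd, w, hw, hvw⟩ := up (M := M) (Ω := Ω) hG.mon hroot hθ hsp.un 𝔓 hv hder
    have hden := dens_up (F := F) (M := M) (Ω := Ω) (f := f) hθ hsp hvw hw (by rw [hd]; exact v1.le)
    have h3 := hC.u0 q hq 𝔓' (fun a ha => by
      rw [IsScalarTower.algebraMap_apply F L Ω, hd]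
      apply hv
      have ha' : a ∈ v.asIdeal := ev ▸ ha
      exact (HeightOneSpectrum.valuation_lt_one_iff_mem (K := F) v a).2 ha')
      (by rw [hd]; exact v1)
    rw [hh₀]
    refine ⟨fun h4 => sq_down hd hden (h3.1 ((ev_down hd x).2 h4)), fun h4 => ?_⟩
    have h5 := h3.2 fun h6 => h4 ((ev_down hd x).1 h6)
    have e : algebraMap L Ω x * ((q : Ω) * algebraMap L Ω θ) =
        algebraMap L Ω (x * ((q : L) * θ)) := by
      rw [map_mul, map_mul, map_natCast]
    rw [e] at h5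
    exact sq_down hd hden h5
  · -- the primes over two
    obtain ⟨w, hvw⟩ : ∃ w : HeightOneSpectrum (𝓞 M), Ab v w := by
      obtain ⟨w, e, he⟩ := over_e (𝓞 F) (𝓞 M) (F := F) (F' := M) v
      refine ⟨w, ?_⟩
      obtain ⟨𝔭, h𝔭⟩ := exists_ab (F := F) w
      obtain ⟨π, hπ⟩ := 𝔭.valuation_exists_uniformizer F
      have h3 : w.valuation M (algebraMap F M π) < 1 := by
        apply h𝔭
        rw [hπ, ← exp_zero, exp_lt_exp]
        norm_num
      have he0 : e ≠ 0 := by
        rintro rfl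
        rw [he, pow_zero] at h3
        exact lt_irrefl _ h3
      intro y hy
      rw [he]
      exact pow_lt_one' hy he0
    have hsp := hM.two v hv
    have h2w : (2 : 𝓞 M) ∈ w.asIdeal := by
      rw [two_mem] at hv ⊢
      have := hvw 2 hv
      rwa [map_ofNat] at this
    obtain ⟨ρ, hρ⟩ := back v w (hsp w hvw).1 (hsp w hvw).2
    have h4 := locIm_map ρ (hh2 w h2w)
    rw [Polynomial.map_map (p := fM M f), Polynomial.map_map (p := h)] at h4
    exact hfmap (ρ.comp (algebraMap M (w.adicCompletion M))) (algebraMap F (v.adicCompletion F))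
      (fun y => hρ y) h4
  · obtain ⟨τ, hτ⟩ := hM.real ρ
    exact hfmap τ ρ hτ (hhr τ)

end base

end Run7.h23.Gd
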