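import Pool.Agent.Run7.h23.Gn.Base

/-!
# The conditions for elements of the extension, with exceptions at the inert primes
-/

set_option autoImplicit false
set_option linter.all false

open Polynomial IsDedekindDomain WithZero NumberField
open scoped Classical IntermediateField

namespace Run7.h23.Gd

open Run7.h23.Gn
open Pool.Agent.N783.PF
open Pool.Agent.N874.PP (Ev Sq1 U0)
open Pool.Agent.N783.PQ (LocIm)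
open Pool.Agent.N874.JM (LocF)
open Pool.Agent.N922.PQ (ev_down sq_down ev_sq ev_mul)

section cond

variable {F L M Ω : Type} [Field F] [NumberField F] [Field L] [NumberField L] [Field M]
  [NumberField M] [Field Ω] [NumberField Ω] [Algebra F L] [Algebra F M] [Algebra L Ω]
  [Algebra M Ω] [Algebra F Ω] [IsScalarTower F L Ω] [IsScalarTower F M Ω]

/-- The conditions. -/
structure CndD (M : Type) [Field M] [NumberField M] [Algebra F M] [Algebra M Ω] (J : Finset ℕ)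
    (𝔮 : ℕ → Ideal (𝓞 F)) (f : (𝓞 F)[X]) (θ : L) (x : Ω) : Prop where
  ev : ∀ 𝔓 : HeightOneSpectrum (𝓞 Ω), 𝔓.valuation Ω 2 = 1 →
    (∀ q ∈ J, 𝔓.valuation Ω (q : Ω) = 1) →
    𝔓.valuation Ω (algebraMap L Ω (aeval θ (derivative (fF f)))) = 1 →
    (∀ v : HeightOneSpectrum (𝓞 F), Ab (E := Ω) v 𝔓 → ¬ Irreducible (rd v.asIdeal f)) → Ev 𝔓 x
  u0 : ∀ q ∈ J, ∀ 𝔓 : HeightOneSpectrum (𝓞 Ω),
    (∀ a ∈ 𝔮 q, 𝔓.valuation Ω (algebraMap F Ω (a : F)) < 1) →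
    𝔓.valuation Ω (algebraMap L Ω θ) = 1 → U0 𝔓 ((q : Ω) * algebraMap L Ω θ) x
  loc : C3 M f (algebraMap L Ω θ) x

theorem cndD_sq {J : Finset ℕ} {𝔮 : ℕ → Ideal (𝓞 F)} {f : (𝓞 F)[X]} {θ : L}
    (hθ : M⟮algebraMap L Ω θ⟯ = ⊤) {x : Ω} (hx : x ≠ 0) : CndD M J 𝔮 f θ (x ^ 2) where
  ev 𝔓 _ _ _ _ := ev_sq 𝔓 x
  u0 := (cnd_sq (M := M) (J := J) (𝔮 := 𝔮) (f := f) hθ hx).u0
  loc := (cnd_sq (M := M) (J := J) (𝔮 := 𝔮) (f := f) hθ hx).loc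

theorem cndD_mul {J : Finset ℕ} {𝔮 : ℕ → Ideal (𝓞 F)} {f : (𝓞 F)[X]} {θ : L}
    (hJ : ∀ q ∈ J, q.Prime ∧ q ≠ 2 ∧ (q : 𝓞 F) ∈ 𝔮 q)
    (hϖ : ∀ q ∈ J, ∀ 𝔓 : HeightOneSpectrum (𝓞 Ω),
      (∀ a ∈ 𝔮 q, 𝔓.valuation Ω (algebraMap F Ω (a : F)) < 1) →
      𝔓.valuation Ω (algebraMap L Ω θ) = 1 → ¬ Ev 𝔓 ((q : Ω) * algebraMap L Ω θ))
    {x y : Ω} (hx : x ≠ 0) (hy : y ≠ 0) (h : CndD M J 𝔮 f θ x) (h' : CndD M J 𝔮 f θ y) :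
    CndD M J 𝔮 f θ (x * y) where
  ev 𝔓 h1 h2 h3 h4 := ev_mul (h.ev 𝔓 h1 h2 h3 h4) (h'.ev 𝔓 h1 h2 h3 h4)
  u0 q hq 𝔓 h1 h3 := by
    have h4 := hϖ q hq 𝔓 h1 h3
    have h5 : (q : Ω) * algebraMap L Ω θ ≠ 0 := by
      intro h0
      apply h4
      rw [h0]
      exact ⟨0, by simp⟩
    obtain ⟨a1, a2, a3⟩ := hJ q hq
    have h6 : Pool.Agent.N783.PQ.Ov q 𝔓 := by
      have h7 := h1 _ a3
      have e : algebraMap F Ω (((q : 𝓞 F)) : F) = algebraMap (𝓞 Ω) Ω (q : 𝓞 Ω) := by simp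
      rw [e, HeightOneSpectrum.valuation_lt_one_iff_mem] at h7
      exact h7
    exact ((Pool.Agent.N457.PQ.cls Ω q 𝔓 _ a1 a2 h6 h5 h4 x y hx hy).2).2
      ⟨fun _ => h'.u0 q hq 𝔓 h1 h3, fun _ => h.u0 q hq 𝔓 h1 h3⟩
  loc := by
    obtain ⟨a, a1, a2, a3⟩ := h.loc
    obtain ⟨b, b1, b2, b3⟩ := h'.loc
    refine ⟨a * b, by rw [map_mul, a1, b1], fun w hw => ?_, fun σ => ?_⟩
    · exact Pool.Agent.N771.PF.locF_mul (a2 w hw) (b2 w hw)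
    · rw [Polynomial.map_mul]
      exact Pool.Agent.N891.PQ.LocIm.mul (a3 σ) (b3 σ)

theorem cndD_sig [Normal F M] {J : Finset ℕ} {𝔮 : ℕ → Ideal (𝓞 F)} {f : (𝓞 F)[X]} {θ : L}
    (σ : Ω ≃ₐ[L] Ω) {x : Ω} (h : CndD M J 𝔮 f θ x) : CndD M J 𝔮 f θ (σ x) := by
  have hf : ∀ y : L, σ (algebraMap L Ω y) = algebraMap L Ω y := fun y => σ.commutes y
  have hF : ∀ y : F, σ (algebraMap F Ω y) = algebraMap F Ω y := fun y => by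
    rw [IsScalarTower.algebraMap_apply F L Ω, hf]
  have hev : ∀ (𝔓 𝔓' : HeightOneSpectrum (𝓞 Ω)),
      (∀ y : Ω, 𝔓'.valuation Ω y = 𝔓.valuation Ω (σ y)) → ∀ y : Ω, Ev 𝔓' y ↔ Ev 𝔓 (σ y) := by
    intro 𝔓 𝔓' hv y
    constructor
    · rintro ⟨z, hz⟩
      exact ⟨σ z, by rw [← hv, ← hv, hz]⟩
    · rintro ⟨z, hz⟩
      refine ⟨σ.symm z, ?_⟩
      rw [hv, hv, σ.apply_symm_apply, hz]
  have hsq : ∀ (𝔓 𝔓' : HeightOneSpectrum (𝓞 Ω)),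
      (∀ y : Ω, 𝔓'.valuation Ω y = 𝔓.valuation Ω (σ y)) → ∀ y : Ω, Sq1 𝔓' y → Sq1 𝔓 (σ y) := by
    rintro 𝔓 𝔓' hv y ⟨z, hz⟩
    refine ⟨σ z, ?_⟩
    rw [hv, hv, map_sub, map_pow] at hz
    exact hz
  refine ⟨fun 𝔓 h1 h2 h3 h4 => ?_, fun q hq 𝔓 h1 h2 => ?_, ?_⟩
  · obtain ⟨𝔓', hv, -⟩ := Pool.Agent.N415.PQ.sig Ω (𝓞 Ω) (σ : Ω ≃+* Ω) 𝔓
    have hv' : ∀ y : Ω, 𝔓'.valuation Ω y = 𝔓.valuation Ω (σ y) := hv
    refine (hev 𝔓 𝔓' hv' x).1 (h.ev 𝔓' ?_ (fun q hq => ?_) ?_ fun v hv => h4 v fun y hy => ?_)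
    · rw [hv', map_ofNat]
      exact h1
    · rw [hv', map_natCast]
      exact h2 q hq
    · rw [hv', hf]
      exact h3
    · have h5 := hv y hy
      rw [hv', hF] at h5
      exact h5
  · obtain ⟨𝔓', hv, -⟩ := Pool.Agent.N415.PQ.sig Ω (𝓞 Ω) (σ : Ω ≃+* Ω) 𝔓
    have hv' : ∀ y : Ω, 𝔓'.valuation Ω y = 𝔓.valuation Ω (σ y) := hv
    have h3 := h.u0 q hq 𝔓' (fun a ha => by rw [hv', hF]; exact h1 a ha)
      (by rw [hv', hf]; exact h2)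
    refine ⟨fun h4 => hsq 𝔓 𝔓' hv' x (h3.1 ((hev 𝔓 𝔓' hv' x).2 h4)), fun h4 => ?_⟩
    have h5 := hsq 𝔓 𝔓' hv' _ (h3.2 fun h6 => h4 ((hev 𝔓 𝔓' hv' x).1 h6))
    rw [map_mul, map_mul, map_natCast, hf] at h5
    exact h5
  · exact c3_sig (σ.restrictScalars F) (hf θ) h.loc

end cond

end Run7.h23.Gd
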