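import Pool.Agent.Run7.h23.Gd.Top
import Pool.Agent.Run7.h23.Gn.Sel

/-!
# The 2-Selmer groups of the twists over all the extensions
-/

set_option autoImplicit false
set_option linter.all false

open Polynomial IsDedekindDomain WithZero NumberField
open scoped Classical IntermediateField

namespace Run7.h23.Gd

open Run7.h23.Gn
open Pool.Agent.N783.PF
open Pool.Agent.N874.PP (Ev Sq1 U0)
open Pool.Agent.N783.PQ (LocIm)
open Pool.Agent.N874.JM (LocF)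

/-- From elements of the field to polynomials. -/
theorem selZero_ofD {M Ω : Type} [Field M] [NumberField M] [Field Ω] [NumberField Ω]
    [Algebra M Ω] {g : ℕ} {f : (𝓞 M)[X]} {θ : Ω} (hc : IsGen g f θ) {D : 𝓞 M} (hD0 : D ≠ 0)
    (hirr : Irreducible (fF f))
    (H : ∀ h : M[X], aeval (algebraMap M Ω (D : M) * θ) h ≠ 0 →
      IsSquare (Algebra.norm M (aeval (algebraMap M Ω (D : M) * θ) h)) →
      (∀ w : HeightOneSpectrum (𝓞 M),
        LocF (w.adicCompletion M) (fF (f.scaleRoots D)) h) →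
      (∀ σ : M →+* ℝ, LocIm ℝ ((fF (f.scaleRoots D)).map σ) (h.map σ)) →
      IsSquare (aeval (algebraMap M Ω (D : M) * θ) h)) :
    Irreducible (fF (f.scaleRoots D)) ∧ SelZero (f.scaleRoots D) := by
  have hm := hc.mon
  have hd := hc.deg
  have hD0F : (D : M) ≠ 0 := by exact_mod_cast hD0
  have hmD : (f.scaleRoots D).Monic := (monic_scaleRoots_iff D).2 hm
  have hirrD : Irreducible (fF (f.scaleRoots D)) := by
    rw [fF_scaleD hm]
    exact Pool.Agent.N170.PF.irr_scale hD0F hirr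
  refine ⟨hirrD, ?_⟩
  intro h hcop hnorm hloc hlocR
  obtain ⟨F', hF'⟩ : ∃ F' : M[X], F' = fF (f.scaleRoots D) := ⟨_, rfl⟩
  obtain ⟨Θ, hΘ⟩ : ∃ Θ : Ω, Θ = algebraMap M Ω (D : M) * θ := ⟨_, rfl⟩
  have hsel := H h
  rw [← hΘ] at hsel
  have hroot : aeval Θ F' = 0 := by
    have e1 := scaleRoots_eval₂_mul (p := fF f) (algebraMap M Ω) θ (D : M)
    have e2 : eval₂ (algebraMap M Ω) θ (fF f) = 0 := by
      rw [← aeval_def]
      exact hc.root
    rw [e2, mul_zero] at e1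
    rw [hF', fF_scaleD hm, aeval_def, hΘ]
    exact e1
  have hmF' : F'.Monic := by
    rw [hF']
    exact hmD.map _
  have hdF' : F'.natDegree = 2 * g + 1 := by
    rw [hF', fF, hmD.natDegree_map, natDegree_scaleRoots, hd]
  rw [← hF'] at hirrD hcop hnorm ⊢
  haveI hfact' : Fact (Irreducible F') := ⟨hirrD⟩
  obtain ⟨φ, hφ⟩ : ∃ φ : AdjoinRoot F' →ₐ[M] Ω,
      φ = AdjoinRoot.liftAlgHom F' (Algebra.ofId M _) Θ hroot := ⟨_, rfl⟩
  have hφmk : ∀ p : M[X], φ (AdjoinRoot.mk F' p) = aeval Θ p := by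
    intro p
    have h1 := AdjoinRoot.liftAlgHom_mk F' (Algebra.ofId M Ω) Θ hroot p
    rw [Algebra.toRingHom_ofId, ← Polynomial.aeval_def] at h1
    rw [hφ]
    exact h1
  have hφinj : Function.Injective φ := φ.toRingHom.injective
  haveI : FiniteDimensional M (AdjoinRoot F') := hmF'.finite_adjoinRoot
  haveI : FiniteDimensional M Ω := Module.finite_of_finrank_pos (by rw [hc.rank]; omega)
  have hrk : Module.finrank M (AdjoinRoot F') = Module.finrank M Ω := by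
    rw [hc.rank, (AdjoinRoot.powerBasis hmF'.ne_zero).finrank, AdjoinRoot.powerBasis_dim, hdF']
  have hφsurj : Function.Surjective φ :=
    (LinearMap.injective_iff_surjective_of_finrank_eq_finrank (f := φ.toLinearMap) hrk).1 hφinj
  obtain ⟨e, he⟩ : ∃ e : AdjoinRoot F' ≃ₐ[M] Ω, ∀ x, e x = φ x :=
    ⟨AlgEquiv.ofBijective φ ⟨hφinj, hφsurj⟩, fun _ => rfl⟩
  have hemk : ∀ p : M[X], e (AdjoinRoot.mk F' p) = aeval Θ p := fun p => (he _).trans (hφmk p)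
  have hne : aeval Θ h ≠ 0 := by
    intro h0
    obtain ⟨u, v, huv⟩ := hcop
    have := congrArg (aeval Θ) huv
    rw [map_add, map_mul, map_mul, hroot, h0, mul_zero, mul_zero, add_zero, map_one] at this
    exact zero_ne_one this
  have hnorm' : IsSquare (Algebra.norm M (aeval Θ h)) := by
    rw [← hemk, Algebra.norm_eq_of_algEquiv]
    exact hnorm
  obtain ⟨y, hy⟩ := hsel hne hnorm' hloc hlocR
  obtain ⟨z, rfl⟩ := hφsurj y
  obtain ⟨s, rfl⟩ := AdjoinRoot.mk_surjective z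
  refine ⟨s, ?_⟩
  rw [← AdjoinRoot.mk_eq_zero]
  apply hφinj
  rw [map_zero, hφmk, map_sub, map_pow, sub_eq_zero]
  rw [hφmk] at hy
  rw [pow_two]
  exact hy

section tower

variable {F L M Ω : Type} [Field F] [NumberField F] [Field L] [NumberField L] [Algebra F L]
  [Field M] [NumberField M] [Field Ω] [NumberField Ω] [Algebra F M]
  [Algebra L Ω] [Algebra M Ω] [Algebra F Ω] [IsScalarTower F L Ω] [IsScalarTower F M Ω]

/-- The descent. -/
theorem sel_absD [IsGalois F M] {n : ℕ} (hn : Module.finrank F M = 2 ^ n) {g W : ℕ}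
    {f f₁ : (𝓞 F)[X]} {θ : L} {S J : Finset ℕ}
    {𝔮 : ℕ → Ideal (𝓞 F)} {r P : ℕ → (𝓞 F)[X]} (hg : 1 ≤ g) (hG : IsGen g f θ) (hsq : SqF g f)
    (hF₁ : GoodF g W f₁) (hS : GoodS g W S 𝔮 r P) (hc1 : Cg (sp F W) f f₁)
    (hcq : ∀ q ∈ S, Cg (sp F q) f (P q)) (hJ : J ⊆ S)
    (hsel : ∀ h : F[X], aeval θ h ≠ 0 → IsSquare (Algebra.norm F (aeval θ h)) →
      (∀ 𝔓 : HeightOneSpectrum (𝓞 L), (∀ q ∈ J, Ov (𝔮 q) 𝔓 → 𝔓.valuation L θ ≠ 1) →
        Ev 𝔓 (aeval θ h)) →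
      (∀ q ∈ J, ∀ 𝔓 : HeightOneSpectrum (𝓞 L), Ov (𝔮 q) 𝔓 → 𝔓.valuation L θ = 1 →
        U0 𝔓 ((q : L) * θ) (aeval θ h)) →
      (∀ w : HeightOneSpectrum (𝓞 F), (2 : 𝓞 F) ∈ w.asIdeal →
        LocF (w.adicCompletion F) (fF f) h) →
      (∀ σ : F →+* ℝ, LocIm ℝ ((fF f).map σ) (h.map σ)) → IsSquare (aeval θ h))
    (hM : Mok M S 𝔮 f) (hθ : M⟮algebraMap L Ω θ⟯ = ⊤) (hr : Module.finrank M Ω = 2 * g + 1)
    (hirr : Irreducible (fM M f)) {D : 𝓞 F} (hD0 : D ≠ 0)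
    (hDP : ∀ v : HeightOneSpectrum (𝓞 F), D ∈ v.asIdeal → Irreducible (rd v.asIdeal f))
    (hD2 : ∀ v : HeightOneSpectrum (𝓞 F), (2 : 𝓞 F) ∈ v.asIdeal →
      IsSquare (algebraMap F (v.adicCompletion F) (D : F)))
    (hDr : ∀ σ : F →+* ℝ, 0 < σ (D : F)) {E : 𝓞 F} (hE : E = D * ((Dp J : ℕ) : 𝓞 F)) :
    Irreducible (fF ((f.scaleRoots E).map (algebraMap (𝓞 F) (𝓞 M)))) ∧
      SelZero ((f.scaleRoots E).map (algebraMap (𝓞 F) (𝓞 M))) := by
  have hGM := isGen_up (M := M) hG hθ hr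
  have hn0 : Dp J ≠ 0 := by
    rw [Dp, Finset.prod_ne_zero_iff]
    exact fun q hq => (hS q (hJ hq)).1.ne_zero
  have hE0 : E ≠ 0 := by
    rw [hE]
    exact mul_ne_zero hD0 (by exact_mod_cast hn0)
  have hEM0 : algebraMap (𝓞 F) (𝓞 M) E ≠ 0 := by
    intro h0
    apply hE0
    exact FaithfulSMul.algebraMap_injective (𝓞 F) (𝓞 M) (by rw [h0, map_zero])
  rw [scale_mapD hG.mon]
  refine selZero_ofD hGM hEM0 hirr fun h hne hN hloc hreal => ?_
  rw [← scale_mapD hG.mon] at hloc hreal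
  have eE : algebraMap M Ω ((algebraMap (𝓞 F) (𝓞 M) E : 𝓞 M) : M) = algebraMap F Ω (E : F) :=
    (IsScalarTower.algebraMap_apply F M Ω (E : F)).symm
  rw [eE] at hne hN ⊢
  have hcnd := cnd_topD (M := M) (Ω := Ω) hg hG hsq hF₁ hS hc1 hcq hJ hM hθ hr hD0 hDP hD2 hDr hE
    hne hloc hreal
  have h2F : (2 : F) ≠ 0 := two_ne_zero
  refine Pool.Agent.N301.JM.tow' n F L M Ω h2F hn
    (by rw [hG.rank]; exact odd_two_mul_add_one g) (by rw [hr, hG.rank])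
    (fun x => CndD M J 𝔮 f θ x) (fun x hx => cndD_sq hθ hx)
    (fun x y hx hy h h' => cndD_mul (fun q hq => ?_) (fun q hq 𝔓 h1 v1 => ?_) hx hy h h')
    (fun σ x h => cndD_sig σ h)
    (fun x hx hC hN => base_sqD (M := M) (Ω := Ω) hg hG hsq hF₁ hS hc1 hcq hJ hsel hM hθ hirr hx
      hC hN) _ hne hcnd hN
  · have hqS := hJ hq
    refine ⟨(hS q hqS).1, fun h2 => ?_, nat_mem_q hS hqS⟩
    have := (hS q hqS).2.2.2.1
    rw [h2] at this
    omega
  · -- the valuation of `q θ`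
    have hqS := hJ hq
    have hcQ : Cg (𝔮 q) f (X * r q) := by
      intro j
      obtain ⟨-, -, -, -, -, -, a2, -, -, -, -, -, -, a3, -⟩ := hS q hqS
      have b1 := Pool.Agent.N78.PF.sp_le (F := F) a2 (hcq q hqS j)
      have b2 := a3 j
      have := Ideal.add_mem _ b1 b2
      simpa using this
    obtain ⟨w, hw⟩ := exists_ab (F := M) 𝔓
    obtain ⟨v, hv⟩ := exists_ab (F := F) w
    obtain ⟨𝔭, h𝔭⟩ := exists_ab (F := L) 𝔓
    have hv𝔓 : Ab (E := Ω) v 𝔓 := ab_tr hv hw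
    have hv𝔭 : Ab v 𝔭 := ab_down hv𝔓 h𝔭
    have hpr : (𝔮 q).IsPrime := (hS q hqS).2.2.2.2.2.1
    have hmax : (𝔮 q).IsMaximal := hpr.isMaximal (q_ne hS hqS)
    have evq : 𝔮 q = v.asIdeal := by
      refine hmax.eq_of_le v.isPrime.ne_top fun a ha => ?_
      have h4 := (val_lt_iff hv𝔓 (a : F)).1 (h1 a ha)
      exact (HeightOneSpectrum.valuation_lt_one_iff_mem (K := F) v a).1 h4
    have hsp := hM.spl q hqS v evq.symm
    have o1 : Ov (𝔮 q) 𝔭 := by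
      rw [evq]
      exact ov_of_ab hv𝔭
    have v1' : 𝔭.valuation L θ = 1 := (val_eq_iff h𝔭 θ).1 v1
    obtain ⟨c1, -, c3, -⟩ := csq g W F L f θ S 𝔮 r P hg hG hsq hS q hqS hcQ 𝔭 o1 v1'
    have hder : 𝔓.valuation Ω (algebraMap L Ω (aeval θ (derivative (fF f)))) = 1 :=
      (val_eq_iff h𝔭 _).2 c3
    have hwv : ∀ x : M, 𝔓.valuation Ω (algebraMap M Ω x) = w.valuation M x := by
      obtain ⟨w₁, hw₁⟩ := Run7.h23.Gn.over_M (M := M) hG.mon hG.root hθ 𝔓 hder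
      have : w₁ = w := ab_unique (E := Ω) (fun x hx => by rw [hw₁]; exact hx) hw
      rw [← this]
      exact hw₁
    have vqv : v.valuation F (q : F) = exp (-1 : ℤ) := by
      obtain ⟨𝔓₁, 𝔓₂, e1, e2, e3, e4, e5, e6, e7⟩ :=
        exq g W F L f θ S 𝔮 r P hg hG hsq hS q hqS hcQ
      have h5 : 𝔭.valuation L (q : L) = exp (-1 : ℤ) := by
        rcases e7 𝔭 o1 with rfl | rfl
        · exact e5
        · exact e6
      obtain ⟨e, he0, he⟩ := ab_e (ov_of_ab hv𝔭)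
      have h6 := he (q : F)
      rw [map_natCast, h5] at h6
      have h7 := exp_pow' h6.symm
      rw [h7, pow_one] at h6
      exact h6.symm
    apply not_ev_exp'
    have e9 : (q : Ω) = algebraMap M Ω (q : M) := by simp
    have h5 := (hsp w hv).1 (q : F)
    rw [map_natCast] at h5
    rw [map_mul, v1, mul_one, e9, hwv, h5, vqv]

end tower

/-- One subset `J` for all the extensions. -/
theorem sel_uniD (g : ℕ) (F : Type) [Field F] [NumberField F] (hg : 1 ≤ g) : ∃ κ : ℕ,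
    ∀ (B N W : ℕ) (f₁ : (𝓞 F)[X]) (S : Finset ℕ) (𝔮 : ℕ → Ideal (𝓞 F)) (r P : ℕ → (𝓞 F)[X])
    (f : (𝓞 F)[X]), κ ≤ W → GoodF g W f₁ → GoodS g W S 𝔮 r P → Fam g B W f₁ S P f →
    2 ^ κ * B ≤ 4 ^ N → 1 ≤ B → ¬ LBad g N κ S 𝔮 P f →
    ∃ J ⊆ S, Irreducible (fF (f.scaleRoots ((Dp J : ℕ) : 𝓞 F))) ∧
      Min g (f.scaleRoots ((Dp J : ℕ) : 𝓞 F)) ∧
      ∀ (D : 𝓞 F), D ≠ 0 →
        (∀ v : HeightOneSpectrum (𝓞 F), D ∈ v.asIdeal → Irreducible (rd v.asIdeal f)) →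
        (∀ v : HeightOneSpectrum (𝓞 F), (2 : 𝓞 F) ∈ v.asIdeal →
          IsSquare (algebraMap F (v.adicCompletion F) (D : F))) →
        (∀ σ : F →+* ℝ, 0 < σ (D : F)) →
      ∀ (M : Type) [Field M] [NumberField M] [Algebra F M] [IsGalois F M] (n : ℕ),
        Module.finrank F M = 2 ^ n → Mok M S 𝔮 f →
        Irreducible (fF ((f.scaleRoots (D * ((Dp J : ℕ) : 𝓞 F))).map
          (algebraMap (𝓞 F) (𝓞 M)))) ∧
        SelZero ((f.scaleRoots (D * ((Dp J : ℕ) : 𝓞 F))).map (algebraMap (𝓞 F) (𝓞 M))) := by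
  obtain ⟨κ₁, hκ₁⟩ := core g F hg
  obtain ⟨κ₂, hκ₂⟩ := sqf g F hg
  refine ⟨max κ₁ κ₂, fun B N W f₁ S 𝔮 r P f hW hf₁ hS hF hBN hB hnb => ?_⟩
  have hBN1 : 2 ^ κ₁ * B ≤ 4 ^ N :=
    (Nat.mul_le_mul_right _ (Nat.pow_le_pow_right (by norm_num) (le_max_left _ _))).trans hBN
  have hBN2 : 2 ^ κ₂ * B ≤ 4 ^ N :=
    (Nat.mul_le_mul_right _ (Nat.pow_le_pow_right (by norm_num) (le_max_right _ _))).trans hBN
  have hnb1 : ¬ LBad g N κ₁ S 𝔮 P f := fun h =>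
    hnb (Pool.Agent.N170.PF.LBad.mono (le_max_left _ _) h)
  have hnb2 : ¬ LBad g N κ₂ S 𝔮 P f := fun h =>
    hnb (Pool.Agent.N170.PF.LBad.mono (le_max_right _ _) h)
  have hm := hF.ht.mon
  have hd := hF.ht.deg
  have hirr : Irreducible (fF f) := Pool.Agent.N667.PF.irr F g W f₁ f hf₁ hF.one hm hd
  have hsq : SqF g f := hκ₂ B N W f₁ S 𝔮 r P f ((le_max_right _ _).trans hW) hf₁ hS hF hirr hBN2
    hB hnb2
  obtain ⟨L, _, _, _, θ, hc⟩ := Pool.Agent.N667.PF.gen F g f hm hd hirr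
  obtain ⟨J, hJ, hcore⟩ := hκ₁ L f f₁ θ B N W S 𝔮 r P ((le_max_left _ _).trans hW) hc hsq hf₁ hS
    hF hBN1 hB hnb1
  have hmin := Pool.Agent.N547.PF.min g W F S J 𝔮 r P f hg hS hsq hm hd hF.con hJ
  have hD0 : Dp J ≠ 0 := by
    rw [Dp, Finset.prod_ne_zero_iff]
    exact fun q hq => (hS q (hJ hq)).1.ne_zero
  have hirrD : Irreducible (fF (f.scaleRoots ((Dp J : ℕ) : 𝓞 F))) := by
    rw [Pool.Agent.N170.PF.fF_scale hm]
    exact Pool.Agent.N170.PF.irr_scale (Nat.cast_ne_zero.2 hD0) hirr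
  refine ⟨J, hJ, hirrD, hmin, ?_⟩
  intro D hD0' hDP hD2 hDr M _ _ _ _ n hn hM
  have hmF : (fF f).Monic := hm.map _
  have hirrM : Irreducible (fM M f) := by
    rw [fM, fF_map]
    refine Pool.Agent.N874.JM.irr_up hn hirr hmF ?_
    rw [fF, hm.natDegree_map, hd]
    exact odd_two_mul_add_one g
  have hmM : (fM M f).Monic := (hm.map _).map _
  obtain ⟨Ω, iF, iA, t, ht, hr, htop, hfin, hmin⟩ :=
    Pool.Agent.N874.JM.exists_field hirrM hmM
  have hdM : (fM M f).natDegree = 2 * g + 1 := by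
    rw [fM, fF, (hm.map _).natDegree_map, hm.natDegree_map, hd]
  rw [hdM] at hr
  haveI : CharZero Ω := charZero_of_injective_algebraMap (algebraMap M Ω).injective
  haveI : FiniteDimensional ℚ Ω := FiniteDimensional.trans ℚ M Ω
  haveI : NumberField Ω := ⟨⟩
  letI : Algebra F Ω := ((algebraMap M Ω).comp (algebraMap F M)).toAlgebra
  haveI : IsScalarTower F M Ω := IsScalarTower.of_algebraMap_eq fun x => rfl
  have ht' : aeval t (minpoly F (Pool.Agent.N459.PF.pb hc).gen) = 0 := by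
    have e1 : minpoly F (Pool.Agent.N459.PF.pb hc).gen = fF f := Pool.Agent.N459.PF.minp hc
    rw [e1]
    rw [fM, fF_map, aeval_map_algebraMap] at ht
    exact ht
  let φ : L →ₐ[F] Ω := (Pool.Agent.N459.PF.pb hc).lift t ht'
  have hφ : φ θ = t := (Pool.Agent.N459.PF.pb hc).lift_gen t ht'
  letI : Algebra L Ω := φ.toRingHom.toAlgebra
  haveI : IsScalarTower F L Ω := IsScalarTower.of_algebraMap_eq fun x => (φ.commutes x).symm
  have hroot : algebraMap L Ω θ = t := hφ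
  have htop' : M⟮algebraMap L Ω θ⟯ = ⊤ := by rw [hroot]; exact htop
  exact sel_absD (L := L) (Ω := Ω) hn hg hc hsq hf₁ hS hF.one hF.con hJ hcore hM htop' hr hirrM
    hD0' hDP hD2 hDr rfl

end Run7.h23.Gd
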