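import Pool.Agent.Run7.h23.Gd.Base
import Pool.Agent.Run7.h23.Gn.Top
import Pool.Agent.TH115.TC.Compl

/-!
# From the local conditions for the twist over the extension to the conditions
-/

set_option autoImplicit false
set_option linter.all false

open Polynomial IsDedekindDomain WithZero NumberField
open scoped Classical IntermediateField

namespace Run7.h23.Gd

open Run7.h23.Gn
open Pool.Agent.N783.PF
open Pool.Agent.N874.PP (Ev Sq1 U0)
open Pool.Agent.N783.PQ (LocIm)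
open Pool.Agent.N874.JM (LocF)
open Pool.Agent.N874.PM (Lies)

section aux

variable {F : Type} [Field F] [NumberField F]

theorem fF_scaleD {f : (𝓞 F)[X]} (hm : f.Monic) (D : 𝓞 F) :
    fF (f.scaleRoots D) = (fF f).scaleRoots (D : F) := by
  unfold fF
  rw [map_scaleRoots]
  rw [hm.leadingCoeff]
  simp

theorem map_locFD {E : Type} [Field E] [CharZero E] [Algebra F E] {g : ℕ} {f : (𝓞 F)[X]}
    (hm : f.Monic) (hd : f.natDegree = 2 * g + 1) {D : 𝓞 F} (δ : E) (hδ0 : δ ≠ 0)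
    (hδ : δ ^ 2 = algebraMap F E (D : F)) (h : F[X])
    (H : LocIm E ((fF (f.scaleRoots D)).map (algebraMap F E)) (h.map (algebraMap F E))) :
    LocIm E ((fF f).map (algebraMap F E)) ((h.comp (C (D : F) * X)).map (algebraMap F E)) := by
  have hmF : (fF f).Monic := hm.map _
  have h1 := Pool.Agent.N457.PQ.sqt E g ((fF f).map (algebraMap F E)) (h.map (algebraMap F E)) δ
    (hmF.map _) (by
      rw [hmF.natDegree_map, hm.natDegree_map, hd]) hδ0
  rw [hδ] at h1
  have e1 : (fF (f.scaleRoots D)).map (algebraMap F E) =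
      ((fF f).map (algebraMap F E)).scaleRoots (algebraMap F E (D : F)) := by
    rw [fF_scaleD hm, map_scaleRoots]
    rw [hmF.leadingCoeff]
    simp
  rw [e1] at H
  have h2 := h1 H
  have e : (h.comp (C (D : F) * X)).map (algebraMap F E) =
      (h.map (algebraMap F E)).comp (C (algebraMap F E (D : F)) * X) := by
    rw [Polynomial.map_comp, Polynomial.map_mul, map_C, map_X]
  rw [e]
  exact h2

variable {L : Type} [Field L] [NumberField L] [Algebra F L]

theorem ev_unitD {g : ℕ} {f : (𝓞 F)[X]} {θ : L} (hG : IsGen g f θ)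
    {w : HeightOneSpectrum (𝓞 F)} {𝔓 : HeightOneSpectrum (𝓞 L)}
    (hL : Lies (M := F) (Ω := L) w 𝔓) (h2 : (2 : 𝓞 F) ∉ w.asIdeal) {D : 𝓞 F}
    (hD : D ∉ w.asIdeal) (h : F[X])
    (hder : 𝔓.valuation L (aeval θ (derivative (fF f))) = 1)
    (hloc : LocF (w.adicCompletion F) (fF (f.scaleRoots D)) h)
    (hne : aeval (algebraMap F L (D : F) * θ) h ≠ 0) :
    Ev 𝔓 (aeval (algebraMap F L (D : F) * θ) h) := by
  have v2 : w.valuation F 2 = 1 := by
    have := Pool.Agent.N78.PF.val_one h2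
    rwa [Pool.Agent.N78.PF.two_cast] at this
  have vD : w.valuation F (D : F) = 1 := Pool.Agent.N78.PF.val_one hD
  rw [fF_scaleD hG.mon] at hloc
  refine Pool.Agent.N78.PF.LOC1 F L (𝓞 F) (𝓞 L) w 𝔓 hL v2 (fF f) h (D : F) θ (hG.mon.map _) ?_ ?_
    hG.root hder vD hloc hne
  · rw [hG.mon.natDegree_map, hG.deg]
    exact ⟨g, rfl⟩
  · intro i
    rw [coeff_map]
    exact HeightOneSpectrum.valuation_le_one (K := F) w _

theorem scale_mapD {M : Type} [Field M] [NumberField M] [Algebra F M] {f : (𝓞 F)[X]}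
    (hm : f.Monic) (D : 𝓞 F) :
    (f.scaleRoots D).map (algebraMap (𝓞 F) (𝓞 M)) =
      (f.map (algebraMap (𝓞 F) (𝓞 M))).scaleRoots (algebraMap (𝓞 F) (𝓞 M) D) := by
  rw [map_scaleRoots]
  rw [hm.leadingCoeff]
  simp

/-- `X r` is reducible modulo a prime. -/
theorem not_irr {g : ℕ} (hg : 1 ≤ g) {r : (𝓞 F)[X]} (hr : r.Monic) (hd : r.natDegree = 2 * g)
    (v : HeightOneSpectrum (𝓞 F)) : ¬ Irreducible (rd v.asIdeal (X * r)) := by
  haveI := v.isMaximal
  letI : Field (𝓞 F ⧸ v.asIdeal) := Ideal.Quotient.field v.asIdeal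
  intro h
  have e : rd v.asIdeal (X * r) = X * rd v.asIdeal r := by
    rw [rd, rd, Polynomial.map_mul, map_X]
  rw [e] at h
  rcases h.isUnit_or_isUnit rfl with h1 | h1
  · exact not_isUnit_X h1
  · have h2 := natDegree_eq_zero_of_isUnit h1
    rw [rd, hr.natDegree_map, hd] at h2
    omega

end aux

section top

variable {F L : Type} [Field F] [NumberField F] [Field L] [NumberField L] [Algebra F L]
  {M Ω : Type} [Field M] [NumberField M] [Field Ω] [NumberField Ω] [Algebra F M]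
  [Algebra L Ω] [Algebra M Ω] [Algebra F Ω] [IsScalarTower F L Ω] [IsScalarTower F M Ω]

theorem cnd_topD {g W : ℕ} {f f₁ : (𝓞 F)[X]} {θ : L} {S J : Finset ℕ}
    {𝔮 : ℕ → Ideal (𝓞 F)} {r P : ℕ → (𝓞 F)[X]} (hg : 1 ≤ g) (hG : IsGen g f θ) (hsq : SqF g f)
    (hF₁ : GoodF g W f₁) (hS : GoodS g W S 𝔮 r P) (hc1 : Cg (sp F W) f f₁)
    (hcq : ∀ q ∈ S, Cg (sp F q) f (P q)) (hJ : J ⊆ S)
    (hM : Mok M S 𝔮 f) (hθ : M⟮algebraMap L Ω θ⟯ = ⊤) (hr : Module.finrank M Ω = 2 * g + 1)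
    {D : 𝓞 F} (hD0 : D ≠ 0)
    (hDP : ∀ v : HeightOneSpectrum (𝓞 F), D ∈ v.asIdeal → Irreducible (rd v.asIdeal f))
    (hD2 : ∀ v : HeightOneSpectrum (𝓞 F), (2 : 𝓞 F) ∈ v.asIdeal →
      IsSquare (algebraMap F (v.adicCompletion F) (D : F)))
    (hDr : ∀ σ : F →+* ℝ, 0 < σ (D : F)) {E : 𝓞 F} (hE : E = D * ((Dp J : ℕ) : 𝓞 F))
    {h : M[X]} (hne : aeval (algebraMap F Ω (E : F) * algebraMap L Ω θ) h ≠ 0)
    (hloc : ∀ w : HeightOneSpectrum (𝓞 M), LocF (w.adicCompletion M)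
      (fF ((f.scaleRoots E).map (algebraMap (𝓞 F) (𝓞 M)))) h)
    (hreal : ∀ σ : M →+* ℝ, LocIm ℝ
      ((fF ((f.scaleRoots E).map (algebraMap (𝓞 F) (𝓞 M)))).map σ) (h.map σ)) :
    CndD M J 𝔮 f θ (aeval (algebraMap F Ω (E : F) * algebraMap L Ω θ) h) := by
  have hGM := isGen_up (M := M) hG hθ hr
  set fm : (𝓞 M)[X] := f.map (algebraMap (𝓞 F) (𝓞 M)) with hfm
  have hqp : ∀ q ∈ S, q.Prime := fun q hq => (hS q hq).1
  have hcQ : ∀ q ∈ S, Cg (𝔮 q) f (X * r q) := by
    intro q hq j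
    obtain ⟨-, -, -, -, -, -, a2, -, -, -, -, -, -, a3, -⟩ := hS q hq
    have b1 := Pool.Agent.N78.PF.sp_le (F := F) a2 (hcq q hq j)
    have b2 := a3 j
    have := Ideal.add_mem _ b1 b2
    simpa using this
  have hn0 : (Dp J : ℕ) ≠ 0 := by
    rw [Dp, Finset.prod_ne_zero_iff]
    exact fun q hq => (hqp q (hJ hq)).ne_zero
  have hn8 : (Dp J : ℕ) % 8 = 1 := by
    have : ∀ T : Finset ℕ, T ⊆ S → (∏ q ∈ T, q) % 8 = 1 := by
      intro T
      induction T using Finset.induction_on with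
      | empty => intro _; rfl
      | insert a T ha ih =>
        intro hT
        rw [Finset.prod_insert ha, Nat.mul_mod, ih fun x hx => hT (Finset.mem_insert_of_mem hx),
          (hS a (hT (Finset.mem_insert_self _ _))).2.2.2.1]
    exact this J hJ
  obtain ⟨EM, hEM⟩ : ∃ EM : 𝓞 M, EM = algebraMap (𝓞 F) (𝓞 M) E := ⟨_, rfl⟩
  have hEMc : (EM : M) = algebraMap F M (E : F) := by rw [hEM]; rfl
  have hEΩ : algebraMap F Ω (E : F) = algebraMap M Ω (EM : M) := by
    rw [hEMc]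
    exact IsScalarTower.algebraMap_apply F M Ω _
  rw [hEΩ] at hne ⊢
  rw [scale_mapD hG.mon, ← hEM] at hloc hreal
  refine ⟨fun 𝔓 h1 h2 h3 h4 => ?_, fun q hq 𝔓 h1 v1 => ?_, ?_⟩
  · -- even valuations
    obtain ⟨w, hw⟩ := exists_ab (F := M) 𝔓
    obtain ⟨v, hv⟩ := exists_ab (F := F) w
    have hv𝔓 : Ab (E := Ω) v 𝔓 := ab_tr hv hw
    refine ev_unitD hGM (lies_ab hw) ?_ ?_ h ?_ (hloc w) hne
    · rw [two_mem, ← val_lt_iff hw, map_ofNat, h1]
      exact lt_irrefl _
    · intro hm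
      have h5 : w.valuation M (EM : M) < 1 := (HeightOneSpectrum.valuation_lt_one_iff_mem (K := M) w EM).2 hm
      rw [hEMc, val_lt_iff hv] at h5
      have h6 : E ∈ v.asIdeal := (HeightOneSpectrum.valuation_lt_one_iff_mem (K := F) v E).1 h5
      rw [hE] at h6
      haveI := v.isPrime
      rcases v.isPrime.mem_or_mem h6 with h7 | h7
      · exact h4 v hv𝔓 (hDP v h7)
      · rw [Dp, Nat.cast_prod] at h7
        obtain ⟨q, hq, hqm⟩ := (Ideal.IsPrime.prod_mem_iff).1 h7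
        have h8 := (nat_mem v q).1 hqm
        have h9 := (val_lt_iff hv𝔓 (q : F)).2 h8
        rw [map_natCast, h2 q hq] at h9
        exact lt_irrefl _ h9
    · rw [hfm, der_up]
      exact h3
  · -- the primes in `J`
    have hqS := hJ hq
    obtain ⟨w, hw⟩ := exists_ab (F := M) 𝔓
    obtain ⟨v, hv⟩ := exists_ab (F := F) w
    obtain ⟨𝔭, h𝔭⟩ := exists_ab (F := L) 𝔓
    have hv𝔓 : Ab (E := Ω) v 𝔓 := ab_tr hv hw
    have hv𝔭 : Ab v 𝔭 := ab_down hv𝔓 h𝔭
    have hpr : (𝔮 q).IsPrime := (hS q hqS).2.2.2.2.2.1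
    have hmax : (𝔮 q).IsMaximal := hpr.isMaximal (q_ne hS hqS)
    have evq : 𝔮 q = v.asIdeal := by
      refine hmax.eq_of_le v.isPrime.ne_top fun a ha => ?_
      have h4 := (val_lt_iff hv𝔓 (a : F)).1 (h1 a ha)
      exact (HeightOneSpectrum.valuation_lt_one_iff_mem (K := F) v a).1 h4
    have hsp := hM.spl q hqS v evq.symm
    obtain ⟨a1, a2, a3, a4, a5, a6, a7, a8, a9, a10, a11, a12, a13, a14, a15⟩ := hS q hqS
    have o1 : Ov (𝔮 q) 𝔭 := by
      rw [evq]
      exact ov_of_ab hv𝔭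
    have v1' : 𝔭.valuation L θ = 1 := (val_eq_iff h𝔭 θ).1 v1
    obtain ⟨c1, -, c3, -⟩ := csq g W F L f θ S 𝔮 r P hg hG hsq hS q hqS (hcQ q hqS) 𝔭 o1 v1'
    have hder : 𝔓.valuation Ω (algebraMap L Ω (aeval θ (derivative (fF f)))) = 1 :=
      (val_eq_iff h𝔭 _).2 c3
    -- the valuation at `𝔓` is that at `w`
    have hwv : ∀ x : M, 𝔓.valuation Ω (algebraMap M Ω x) = w.valuation M x := by
      obtain ⟨w₁, hw₁⟩ := Run7.h23.Gn.over_M (M := M) hG.mon hG.root hθ 𝔓 hder
      have : w₁ = w := ab_unique (E := Ω) (fun x hx => by rw [hw₁]; exact hx) hw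
      rw [← this]
      exact hw₁
    have vqv : v.valuation F (q : F) = exp (-1 : ℤ) := by
      obtain ⟨𝔓₁, 𝔓₂, e1, e2, e3, e4, e5, e6, e7⟩ :=
        exq g W F L f θ S 𝔮 r P hg hG hsq hS q hqS (hcQ q hqS)
      have h5 : 𝔭.valuation L (q : L) = exp (-1 : ℤ) := by
        rcases e7 𝔭 o1 with rfl | rfl
        · exact e5
        · exact e6
      obtain ⟨e, he0, he⟩ := ab_e (ov_of_ab hv𝔭)
      have h6 := he (q : F)
      rw [map_natCast, h5] at h6
      have h7 := exp_pow' h6.symm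
      rw [h7, pow_one] at h6
      exact h6.symm
    have vq : 𝔓.valuation Ω (algebraMap M Ω (q : M)) = WithZero.exp (-1 : ℤ) := by
      rw [hwv]
      have h5 := (hsp w hv).1 (q : F)
      rw [map_natCast] at h5
      rw [h5, vqv]
    haveI : Finite (𝓞 M ⧸ w.asIdeal) := Ideal.finiteQuotientOfFreeOfNeBot _ w.ne_bot
    haveI : Finite (𝓞 Ω ⧸ 𝔓.asIdeal) := Ideal.finiteQuotientOfFreeOfNeBot _ 𝔓.ne_bot
    have h2q : (2 : 𝓞 F) ∉ 𝔮 q := by
      intro hm
      have h9 : ((q : 𝓞 F)) - 2 * ((q / 2 : ℕ) : 𝓞 F) = 1 := by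
        have h10 : q = 2 * (q / 2) + 1 := by omega
        have h11 : (q : 𝓞 F) = 2 * ((q / 2 : ℕ) : 𝓞 F) + 1 := by
          exact_mod_cast congrArg (Nat.cast (R := 𝓞 F)) h10
        rw [h11]
        ring
      apply a6.ne_top
      rw [Ideal.eq_top_iff_one, ← h9]
      exact Ideal.sub_mem _ a7 (Ideal.mul_mem_right _ _ hm)
    have nat_mem' : ∀ p : ℕ, p.Prime → (p : 𝓞 F) ∈ 𝔮 q → p = q := by
      intro p hp hpm
      by_contra hpq
      have hco : Nat.Coprime p q := (Nat.coprime_primes hp a1).2 hpq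
      obtain ⟨u, v, huv⟩ := (Nat.isCoprime_iff_coprime.2 hco)
      apply a6.ne_top
      rw [Ideal.eq_top_iff_one]
      have h9 : (1 : 𝓞 F) = (u : 𝓞 F) * (p : 𝓞 F) + (v : 𝓞 F) * (q : 𝓞 F) := by
        have := congrArg (Int.cast (R := 𝓞 F)) huv
        push_cast at this
        exact this.symm
      rw [h9]
      exact Ideal.add_mem _ (Ideal.mul_mem_left _ _ hpm) (Ideal.mul_mem_left _ _ a7)
    obtain ⟨D', hD'⟩ : ∃ D' : 𝓞 F, D' = D * ((∏ p ∈ J.erase q, p : ℕ) : 𝓞 F) := ⟨_, rfl⟩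
    have hDD : E = (q : 𝓞 F) * D' := by
      have e0 : (Dp J : ℕ) = q * ∏ p ∈ J.erase q, p :=
        (Finset.mul_prod_erase J (fun P => P) hq).symm
      rw [hE, hD', e0, Nat.cast_mul]
      ring
    have hDq : D ∉ 𝔮 q := by
      intro hm
      rw [evq] at hm
      have h4 := hDP v hm
      have e1 : rd v.asIdeal f = rd v.asIdeal (X * r q) :=
        Pool.Agent.N78.PF.rd_eq (𝔞 := 𝔮 q) (by rw [evq]) (hcQ q hqS)
      rw [e1] at h4
      exact not_irr hg a8 a9 v h4
    have hD'm : D' ∉ 𝔮 q := by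
      intro hd
      rw [hD'] at hd
      rcases a6.mem_or_mem hd with hd | hd
      · exact hDq hd
      · rw [Nat.cast_prod] at hd
        haveI := a6
        obtain ⟨p, hp, hpm⟩ := (Ideal.IsPrime.prod_mem_iff).1 hd
        have hp' := Finset.mem_erase.1 hp
        exact hp'.1 (nat_mem' p (hqp p (hJ hp'.2)) hpm)
    have hunit : ∀ n : 𝓞 F, n ∉ 𝔮 q → w.valuation M (algebraMap F M (n : F)) = 1 := by
      intro n hn
      exact (val_eq_iff hv (n : F)).2 (Pool.Agent.N78.PF.val_one (by rw [← evq]; exact hn))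
    have v2 : w.valuation M 2 = 1 := by
      have := hunit 2 h2q
      rw [Pool.Agent.N78.PF.two_cast, map_ofNat] at this
      exact this
    have vD' : w.valuation M (algebraMap F M (D' : F)) = 1 := hunit D' hD'm
    have s1 : Sq1 𝔓 (-1 : Ω) := by
      have h5 := c1 (-1) (by
        intro hm
        apply a6.ne_top
        rw [Ideal.eq_top_iff_one]
        have := Ideal.neg_mem_iff _ |>.2 hm
        simpa using this)
      have h6 := sq_up h𝔭 h5
      simpa using h6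
    have s2 : Sq1 𝔓 (algebraMap M Ω (algebraMap F M (D' : F))) := by
      have h6 := sq_up h𝔭 (c1 D' hD'm)
      rw [← IsScalarTower.algebraMap_apply F M Ω, IsScalarTower.algebraMap_apply F L Ω]
      exact h6
    have hl := hloc w
    have e8 : (EM : M) = (q : M) * algebraMap F M (D' : F) := by
      rw [hEMc, hDD]
      simp
    rw [fF_scaleD hGM.mon, e8] at hl
    have e9 : (q : Ω) = algebraMap M Ω (q : M) := by simp
    rw [e8] at hne ⊢
    rw [e9]
    refine Pool.Agent.N78.PF.LOC2 M Ω (𝓞 M) (𝓞 Ω) w 𝔓 (lies_ab hw) v2 g (fF fm) h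
      ((r q).map (algebraMap (𝓞 F) (𝓞 M))) (q : M) (algebraMap F M (D' : F)) (algebraMap L Ω θ) hg
      (hGM.mon.map _) ?_ (a8.map _) ?_ ?_ ?_ hGM.root v1 vq vD' s1 s2 hl hne
    · rw [fF, hGM.mon.natDegree_map, hGM.deg]
    · rw [a8.natDegree_map, a9]
    · exact irr_w hsp hv (by rw [← evq]; exact a10)
    · intro j
      have e1 : (X * (r q).map (algebraMap (𝓞 F) (𝓞 M))) =
          (X * r q).map (algebraMap (𝓞 F) (𝓞 M)) := by
        rw [Polynomial.map_mul, map_X]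
      rw [e1, fF, hfm, coeff_map, coeff_map, coeff_map, ← map_sub, ← map_sub]
      refine (HeightOneSpectrum.valuation_lt_one_iff_mem (K := M) w _).2 ?_
      refine ov_of_ab hv _ ?_
      rw [← evq]
      exact hcQ q hqS j
  · -- the image at two and at infinity
    have hE0 : (E : F) ≠ 0 := by
      have h5 : E ≠ 0 := by
        rw [hE]
        exact mul_ne_zero hD0 (by exact_mod_cast hn0)
      exact_mod_cast h5
    have hEF : (E : F) = (D : F) * ((Dp J : ℕ) : F) := by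
      rw [hE]
      simp
    have e0 : aeval (algebraMap L Ω θ) (h.comp (C (EM : M) * X)) =
        aeval (algebraMap M Ω (EM : M) * algebraMap L Ω θ) h := by
      rw [aeval_comp, map_mul, aeval_C, aeval_X]
    refine ⟨h.comp (C (EM : M) * X), e0, fun w hw => ?_, fun σ => ?_⟩
    · haveI : Fact (Nat.Prime 2) := ⟨Nat.prime_two⟩
      obtain ⟨δ, hδ⟩ := Pool.Agent.N891.PQ.sq_two (Dp J) hn8
      obtain ⟨ι, hι, -, -⟩ := Pool.Agent.N498.PQ.cpl M 2 w (by
        change ((2 : ℕ) : 𝓞 M) ∈ w.asIdeal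
        exact_mod_cast hw)
      haveI : CharZero (w.adicCompletion M) :=
        charZero_of_injective_algebraMap (algebraMap M (w.adicCompletion M)).injective
      obtain ⟨v, hv⟩ := exists_ab (F := F) w
      have h2v : (2 : 𝓞 F) ∈ v.asIdeal := by
        rw [two_mem] at hw ⊢
        rw [← val_lt_iff hv, map_ofNat]
        exact hw
      obtain ⟨s, hs⟩ := hD2 v h2v
      obtain ⟨j, hj, -, -⟩ := Pool.Agent.TH115.GD.exists_compl_map v w (algebraMap F M)
        (fun y hy => by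
          obtain ⟨e, -, he⟩ := ab_e (ov_of_ab hv)
          rw [he]
          exact pow_le_one' hy e)
        (fun y hy => (val_lt_iff hv y).2 hy)
      have h6 : (ι δ * j s) ^ 2 = algebraMap M (w.adicCompletion M) (EM : M) := by
        rw [hEMc, hEF, map_mul, map_mul, map_natCast, map_natCast, mul_pow, ← map_pow, hδ,
          map_natCast, mul_comm]
        congr 1
        rw [← hj, hs, map_mul, pow_two]
      refine map_locFD hGM.mon hGM.deg (ι δ * j s) ?_ h6 h (hloc w)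
      intro h7
      rw [h7, zero_pow two_ne_zero] at h6
      have h8 := (map_eq_zero (algebraMap M (w.adicCompletion M))).1 h6.symm
      rw [hEMc] at h8
      exact hE0 ((map_eq_zero (algebraMap F M)).1 h8)
    · letI : Algebra M ℝ := σ.toAlgebra
      have h7 : 0 < σ (EM : M) := by
        rw [hEMc, hEF, map_mul, map_mul, map_natCast, map_natCast]
        refine mul_pos (hDr (σ.comp (algebraMap F M))) ?_
        have : 0 < (Dp J : ℕ) := Nat.pos_of_ne_zero hn0
        exact_mod_cast this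
      exact map_locFD (E := ℝ) hGM.mon hGM.deg (Real.sqrt (σ (EM : M)))
        (Real.sqrt_ne_zero'.2 h7) (Real.sq_sqrt h7.le) h (hreal σ)

end top

end Run7.h23.Gd
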